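import Pool.Agent.H68.SymDec.Unique

/-!
# The filtration with weights `(2, 1)` and the ranks of the pairings
-/

open Module Polynomial

namespace Pool.Agent.H68.SymDec

section LinAlg

variable {k V W : Type*} [Field k] [AddCommGroup V] [Module k V] [AddCommGroup W] [Module k W]

theorem finrank_comap_subtype' (P Q : Submodule k V) :
    finrank k (Q.comap P.subtype) = finrank k (P ⊓ Q : Submodule k V) := by
  rw [← Submodule.finrank_map_subtype_eq, Submodule.map_comap_subtype]

theorem finrank_map_add (P : Submodule k V) [FiniteDimensional k P] (f : V →ₗ[k] W) :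
    finrank k (P.map f) + finrank k (P ⊓ LinearMap.ker f : Submodule k V) = finrank k P := by
  have h := LinearMap.finrank_range_add_finrank_ker (f.domRestrict P)
  rwa [LinearMap.range_domRestrict, LinearMap.ker_domRestrict, finrank_comap_subtype'] at h

theorem dimJ [FiniteDimensional k W] {D : Submodule k V} [FiniteDimensional k D] {f : V →ₗ[k] W}
    {G F : Submodule k W} (hF : F = G ⊔ D.map f) :
    finrank k (D ⊓ G.comap f : Submodule k V) + finrank k F = finrank k D + finrank k G := by
  have h1 := Submodule.finrank_sup_add_finrank_inf_eq G (D.map f)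
  have h2 := finrank_map_add D f
  have h3 : G ⊓ D.map f = (D ⊓ G.comap f).map f := by
    ext z
    constructor
    · rintro ⟨hz, w, hw, rfl⟩
      exact ⟨w, ⟨hw, hz⟩, rfl⟩
    · rintro ⟨w, ⟨hw, hz⟩, rfl⟩
      exact ⟨hz, w, hw, rfl⟩
  have : FiniteDimensional k (D ⊓ G.comap f : Submodule k V) :=
    Submodule.finiteDimensional_inf_left _ _
  have h4 := finrank_map_add (D ⊓ G.comap f) f
  have h5 : D ⊓ G.comap f ⊓ LinearMap.ker f = D ⊓ LinearMap.ker f := by
    ext z
    constructor
    · rintro ⟨⟨hz, _⟩, hk⟩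
      exact ⟨hz, hk⟩
    · rintro ⟨hz, hk⟩
      refine ⟨⟨hz, ?_⟩, hk⟩
      have : f z = 0 := hk
      change f z ∈ G
      rw [this]; exact G.zero_mem
  rw [h5] at h4
  rw [← h3] at h4
  rw [← hF] at h1
  omega

end LinAlg

section Form

variable {k A : Type*} [Field k] [CommRing A] [Algebra k A]

/-- the pairing -/
noncomputable def form (φ : A →ₗ[k] k) : LinearMap.BilinForm k A := (LinearMap.mul k A).compr₂ φ

theorem form_apply (φ : A →ₗ[k] k) (a b : A) : form φ a b = φ (a * b) := rfl

theorem form_refl (φ : A →ₗ[k] k) : (form φ).IsRefl := by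
  intro a b h
  rw [form_apply] at h ⊢
  rwa [mul_comm]

/-- the two ranks of the pairing between `U` and `W` agree -/
theorem rank_symm_aux {V : Type*} [AddCommGroup V] [Module k V] [FiniteDimensional k V]
    (B : LinearMap.BilinForm k V) (hr : B.IsRefl) (hnd : B.Nondegenerate) (U W : Submodule k V) :
    finrank k U + finrank k (W ⊓ B.orthogonal U : Submodule k V) =
      finrank k W + finrank k (U ⊓ B.orthogonal W : Submodule k V) := by
  have h1 := LinearMap.BilinForm.finrank_orthogonal hnd U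
  have h2 := LinearMap.BilinForm.finrank_orthogonal hnd (B.orthogonal U ⊔ W)
  have hUU : B.orthogonal (B.orthogonal U) = U :=
    LinearMap.BilinForm.orthogonal_orthogonal hnd hr U
  have h3 : B.orthogonal (B.orthogonal U ⊔ W) = U ⊓ B.orthogonal W := by
    apply le_antisymm
    · refine le_inf ?_ ?_
      · have h := LinearMap.BilinForm.orthogonal_le (B := B)
          (le_sup_left : B.orthogonal U ≤ B.orthogonal U ⊔ W)
        rwa [hUU] at h
      · exact LinearMap.BilinForm.orthogonal_le le_sup_right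
    · rintro z ⟨hz1, hz2⟩
      rw [LinearMap.BilinForm.mem_orthogonal_iff]
      intro n hn
      obtain ⟨a, ha, b, hb, rfl⟩ := Submodule.mem_sup.1 hn
      have e1 : B a z = 0 := hr _ _ ((LinearMap.BilinForm.mem_orthogonal_iff.1 ha) z hz1)
      have e2 : B b z = 0 := (LinearMap.BilinForm.mem_orthogonal_iff.1 hz2) b hb
      rw [map_add, LinearMap.add_apply, e1, e2, add_zero]
  have h4 := Submodule.finrank_sup_add_finrank_inf_eq (B.orthogonal U) W
  rw [inf_comm (B.orthogonal U) W] at h4
  have h6 : finrank k U ≤ finrank k V := Submodule.finrank_le U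
  have h7 : finrank k (B.orthogonal U ⊔ W : Submodule k V) ≤ finrank k V :=
    Submodule.finrank_le _
  rw [h3] at h2
  omega

theorem form_nondegenerate {φ : A →ₗ[k] k} (hφ : ∀ a : A, a ≠ 0 → ∃ b, φ (a * b) ≠ 0) :
    (form φ).Nondegenerate := by
  constructor
  · intro a ha
    by_contra h0
    obtain ⟨b, hb⟩ := hφ a h0
    exact hb (ha b)
  · intro a ha
    by_contra h0
    obtain ⟨b, hb⟩ := hφ a h0
    have := ha b
    rw [form_apply, mul_comm] at this
    exact hb this

theorem rank_symm [FiniteDimensional k A] {φ : A →ₗ[k] k}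
    (hφ : ∀ a : A, a ≠ 0 → ∃ b, φ (a * b) ≠ 0) (U W : Submodule k A) :
    finrank k U + finrank k (W ⊓ (form φ).orthogonal U : Submodule k A) =
      finrank k W + finrank k (U ⊓ (form φ).orthogonal W : Submodule k A) :=
  rank_symm_aux _ (form_refl φ) (form_nondegenerate hφ) U W

/-- For an ideal the orthogonal space is the annihilator. -/
theorem orthogonal_ideal {φ : A →ₗ[k] k} (hφ : ∀ a : A, a ≠ 0 → ∃ b, φ (a * b) ≠ 0)
    (I : Ideal A) :
    (form φ).orthogonal (I.restrictScalars k) =
      (Submodule.annihilator I).restrictScalars k := by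
  ext z
  rw [LinearMap.BilinForm.mem_orthogonal_iff, Submodule.restrictScalars_mem,
    Submodule.mem_annihilator]
  constructor
  · intro h n hn
    by_contra h0
    obtain ⟨b, hb⟩ := hφ _ h0
    apply hb
    have := h (n * b) (I.mul_mem_right b hn)
    change φ (n * b * z) = 0 at this
    rw [smul_eq_mul, show z * n * b = n * b * z by ring]
    exact this
  · intro h n hn
    change φ (n * z) = 0
    have := h n hn
    rw [smul_eq_mul] at this
    rw [mul_comm, this, map_zero]

end Form

section Filtration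

variable {A : Type*} [CommRing A] (x y : A)

/-- the ideal generated by the monomials of weight at least `w` -/
def F (w : ℕ) : Ideal A := Ideal.span {z | ∃ i j : ℕ, w ≤ 2 * i + j ∧ z = x ^ i * y ^ j}

variable {x y}

theorem mem_F {w i j : ℕ} (h : w ≤ 2 * i + j) : x ^ i * y ^ j ∈ F x y w :=
  Ideal.subset_span ⟨i, j, h, rfl⟩

theorem F_anti {w w' : ℕ} (h : w ≤ w') : F x y w' ≤ F x y w := by
  apply Ideal.span_mono
  rintro z ⟨i, j, hij, rfl⟩
  exact ⟨i, j, h.trans hij, rfl⟩

theorem F_zero : F x y 0 = ⊤ := by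
  rw [Ideal.eq_top_iff_one]
  have := mem_F (x := x) (y := y) (w := 0) (i := 0) (j := 0) (by omega)
  simpa using this

theorem F_mul (i l : ℕ) : F x y i * F x y l ≤ F x y (i + l) := by
  unfold F
  rw [Ideal.span_mul_span', Ideal.span_le]
  rintro _ ⟨_, ⟨a, b, hab, rfl⟩, _, ⟨c, d, hcd, rfl⟩, rfl⟩
  apply Ideal.subset_span
  refine ⟨a + c, b + d, by omega, ?_⟩
  simp only
  ring

theorem mul_mem_F {i l : ℕ} {a b : A} (ha : a ∈ F x y i) (hb : b ∈ F x y l) :
    a * b ∈ F x y (i + l) := F_mul i l (Ideal.mul_mem_mul ha hb)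

theorem x_mem_F : x ∈ F x y 2 := by
  have := mem_F (x := x) (y := y) (w := 2) (i := 1) (j := 0) (by omega)
  simpa using this

theorem y_mem_F : y ∈ F x y 1 := by
  have := mem_F (x := x) (y := y) (w := 1) (i := 0) (j := 1) (by omega)
  simpa using this

theorem x_mul_mem {w : ℕ} {a : A} (ha : a ∈ F x y w) : x * a ∈ F x y (w + 2) := by
  have := mul_mem_F (x_mem_F (x := x) (y := y)) ha
  rwa [add_comm] at this

theorem y_mul_mem {w : ℕ} {a : A} (ha : a ∈ F x y w) : y * a ∈ F x y (w + 1) := by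
  have := mul_mem_F (y_mem_F (x := x) (y := y)) ha
  rwa [add_comm] at this

theorem m_mul_mem {w : ℕ} {a m : A} (hm : m ∈ Ideal.span {x, y}) (ha : a ∈ F x y w) :
    m * a ∈ F x y (w + 1) := by
  obtain ⟨p, q, rfl⟩ := Ideal.mem_span_pair.1 hm
  have e : (p * x + q * y) * a = p * (x * a) + q * (y * a) := by ring
  rw [e]
  refine Ideal.add_mem _ (Ideal.mul_mem_left _ _ (F_anti (by omega) (x_mul_mem ha)))
    (Ideal.mul_mem_left _ _ (y_mul_mem ha))

theorem F_even (n : ℕ) : F x y (2 * n) = Ideal.span {x, y ^ 2} ^ n := by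
  apply le_antisymm
  · apply Ideal.span_le.2
    rintro z ⟨i, j, hij, rfl⟩
    have h1 : x ∈ Ideal.span {x, y ^ 2} := Ideal.subset_span (by simp)
    have h2 : y ^ 2 ∈ Ideal.span {x, y ^ 2} := Ideal.subset_span (by simp)
    have e : x ^ i * y ^ j = y ^ (j % 2) * (x ^ i * (y ^ 2) ^ (j / 2)) := by
      rw [← pow_mul]
      calc x ^ i * y ^ j = x ^ i * y ^ (2 * (j / 2) + j % 2) := by rw [Nat.div_add_mod]
        _ = _ := by rw [pow_add]; ring
    change x ^ i * y ^ j ∈ _
    rw [e]
    apply Ideal.mul_mem_left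
    have h3 : x ^ i * (y ^ 2) ^ (j / 2) ∈ Ideal.span {x, y ^ 2} ^ (i + j / 2) := by
      rw [pow_add]
      exact Ideal.mul_mem_mul (Ideal.pow_mem_pow h1 i) (Ideal.pow_mem_pow h2 _)
    exact Ideal.pow_le_pow_right (by omega) h3
  · induction n with
    | zero => simp [F_zero]
    | succ n ih =>
      rw [pow_succ', Ideal.mul_le]
      intro r hr s hs
      obtain ⟨p, q, rfl⟩ := Ideal.mem_span_pair.1 hr
      have hs' := ih hs
      have e : (p * x + q * y ^ 2) * s = p * (x * s) + q * (y * (y * s)) := by ring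
      rw [e]
      exact Ideal.add_mem _ (Ideal.mul_mem_left _ _ (x_mul_mem hs'))
        (Ideal.mul_mem_left _ _ (y_mul_mem (y_mul_mem hs')))

end Filtration

section Main

variable {k A : Type*} [Field k] [CommRing A] [Algebra k A] (x y : A)

/-- weighted forms of degree `j`, written as polynomials in one variable -/
noncomputable def ev (j : ℕ) : k[X] →ₗ[k] A :=
  Polynomial.lsum (fun α => LinearMap.toSpanSingleton k A (x ^ α * y ^ (j - 2 * α)))

theorem ev_monomial (j α : ℕ) (c : k) :
    ev x y j (Polynomial.monomial α c) = c • (x ^ α * y ^ (j - 2 * α)) := by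
  unfold ev
  rw [Polynomial.lsum_apply, Polynomial.sum_monomial_index]
  · simp
  · simp

/-- `F^(j+1) + (F^j ∩ (0 : F^(V-j)))` -/
noncomputable def G (V j : ℕ) : Ideal A :=
  F x y (j + 1) ⊔ (F x y j ⊓ Submodule.annihilator (F x y (V - j)))

/-- the forms of weighted degree `j` in `G V j` -/
noncomputable def J (k : Type*) {A : Type*} [Field k] [CommRing A] [Algebra k A] (x y : A)
    (V j : ℕ) : Submodule k k[X] :=
  degreeLT k (j / 2 + 1) ⊓ ((G x y V j).restrictScalars k).comap (ev x y j)

variable {x y}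

theorem ev_mul_y {j : ℕ} {p : k[X]} (hp : p ∈ degreeLT k (j / 2 + 1)) :
    ev x y (j + 1) p = y * ev x y j p := by
  classical
  rw [degreeLT_eq_span_X_pow] at hp
  induction hp using Submodule.span_induction with
  | mem p hp =>
    simp only [Finset.coe_image, Set.mem_image, Finset.coe_range, Set.mem_Iio] at hp
    obtain ⟨α, hα, rfl⟩ := hp
    rw [X_pow_eq_monomial, ev_monomial, ev_monomial, one_smul, one_smul]
    rw [show j + 1 - 2 * α = (j - 2 * α) + 1 by omega, pow_succ]
    ring
  | zero => simp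
  | add p q _ _ h1 h2 => rw [map_add, map_add, h1, h2, mul_add]
  | smul c p _ h1 => rw [map_smul, map_smul, h1, mul_smul_comm]

theorem ev_mul_x (j : ℕ) (p : k[X]) : ev x y (j + 2) (X * p) = x * ev x y j p := by
  induction p using Polynomial.induction_on' with
  | add p q h1 h2 => rw [mul_add, map_add, map_add, h1, h2, mul_add]
  | monomial α c =>
    rw [X_mul_monomial, ev_monomial, ev_monomial, show j + 2 - 2 * (α + 1) = j - 2 * α by omega,
      pow_succ, mul_smul_comm]
    congr 1
    ring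

theorem G_mul_y {V j : ℕ} {z : A} (hz : z ∈ G x y V j) : y * z ∈ G x y V (j + 1) := by
  obtain ⟨f, hf, g, hg, rfl⟩ := Submodule.mem_sup.1 hz
  rw [mul_add]
  refine Ideal.add_mem _ (Ideal.mem_sup_left (y_mul_mem hf)) (Ideal.mem_sup_right ?_)
  obtain ⟨hg1, hg2⟩ := hg
  refine ⟨y_mul_mem hg1, ?_⟩
  rw [SetLike.mem_coe, Submodule.mem_annihilator] at hg2 ⊢
  intro n hn
  have := hg2 (y * n) (F_anti (by omega) (y_mul_mem hn))
  rw [smul_eq_mul] at this ⊢
  rw [← this]; ring

theorem G_mul_x {V j : ℕ} {z : A} (hz : z ∈ G x y V j) : x * z ∈ G x y V (j + 2) := by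
  obtain ⟨f, hf, g, hg, rfl⟩ := Submodule.mem_sup.1 hz
  rw [mul_add]
  refine Ideal.add_mem _ (Ideal.mem_sup_left (F_anti (by omega) (x_mul_mem hf)))
    (Ideal.mem_sup_right ?_)
  obtain ⟨hg1, hg2⟩ := hg
  refine ⟨x_mul_mem hg1, ?_⟩
  rw [SetLike.mem_coe, Submodule.mem_annihilator] at hg2 ⊢
  intro n hn
  have := hg2 (x * n) (F_anti (by omega) (x_mul_mem hn))
  rw [smul_eq_mul] at this ⊢
  rw [← this]; ring

theorem J_le_succ (V j : ℕ) : J k x y V j ≤ J k x y V (j + 1) := by
  rintro p ⟨hp1, hp2⟩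
  refine ⟨degreeLT_mono (by omega) hp1, ?_⟩
  change ev x y (j + 1) p ∈ (G x y V (j + 1)).restrictScalars k
  rw [ev_mul_y hp1]
  exact G_mul_y hp2

theorem X_mul_mem_J {V j : ℕ} {p : k[X]} (hp : p ∈ J k x y V j) : X * p ∈ J k x y V (j + 2) := by
  obtain ⟨hp1, hp2⟩ := hp
  refine ⟨?_, ?_⟩
  · rw [SetLike.mem_coe, mem_degreeLT] at hp1 ⊢
    by_cases h0 : p = 0
    · subst h0; simp
    rw [degree_eq_natDegree h0] at hp1
    rw [degree_eq_natDegree (mul_ne_zero X_ne_zero h0), natDegree_X_mul h0]
    norm_cast at hp1 ⊢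
    omega
  · change ev x y (j + 2) (X * p) ∈ (G x y V (j + 2)).restrictScalars k
    rw [ev_mul_x]
    exact G_mul_x hp2

end Main

end Pool.Agent.H68.SymDec
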