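import Pool.Agent.H68.SymDec.Ranks

/-!
# Lengths, socles and the shape of the ideal
-/

open Module Polynomial IsLocalRing

namespace Pool.Agent.H68.SymDec

section Length

variable {A M N : Type*} [CommRing A] [AddCommGroup M] [Module A M] [AddCommGroup N] [Module A N]

theorem length_map_add (P : Submodule A M) (f : M →ₗ[A] N) :
    Module.length A (P.map f) + Module.length A (P ⊓ LinearMap.ker f : Submodule A M) =
      Module.length A P := by
  set g := f.domRestrict P with hg
  have h := Module.length_eq_add_of_exact (LinearMap.ker g).subtype g.rangeRestrict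
    (Submodule.subtype_injective _) (LinearMap.surjective_rangeRestrict g)
    (by
      rw [LinearMap.exact_iff, LinearMap.ker_rangeRestrict, Submodule.range_subtype])
  rw [h, add_comm]
  have e1 : LinearMap.range g = P.map f := LinearMap.range_domRestrict P f
  have e2 : (LinearMap.ker g).map P.subtype = P ⊓ LinearMap.ker f := by
    rw [hg, LinearMap.ker_domRestrict, Submodule.map_comap_subtype]
  have e3 : Module.length A (LinearMap.ker g) =
      Module.length A (P ⊓ LinearMap.ker f : Submodule A M) := by
    rw [← e2]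
    exact (Submodule.equivMapOfInjective P.subtype (Submodule.subtype_injective P) _).length_eq
  rw [e1, e3]

theorem length_quot_add {P Q : Submodule A M} (h : P ≤ Q) :
    Module.length A (Q ⧸ P.submoduleOf Q) + Module.length A P = Module.length A Q := by
  rw [Module.length_eq_add_of_exact (P.submoduleOf Q).subtype (P.submoduleOf Q).mkQ
    (Submodule.subtype_injective _) (Submodule.mkQ_surjective _)
    (by rw [LinearMap.exact_iff, Submodule.range_subtype, Submodule.ker_mkQ]),
    (Submodule.submoduleOfEquivOfLe h).length_eq, add_comm]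

theorem length_map_mkQ {P E Q : Submodule A M} (h1 : P ≤ E) (h2 : E ≤ Q) :
    Module.length A ((E.submoduleOf Q).map (P.submoduleOf Q).mkQ) + Module.length A P =
      Module.length A E := by
  have h := length_map_add (E.submoduleOf Q) (P.submoduleOf Q).mkQ
  rw [Submodule.ker_mkQ] at h
  have e : E.submoduleOf Q ⊓ P.submoduleOf Q = P.submoduleOf Q := by
    rw [inf_eq_right]
    exact Submodule.comap_mono h1
  rw [e, (Submodule.submoduleOfEquivOfLe (h1.trans h2)).length_eq,
    (Submodule.submoduleOfEquivOfLe h2).length_eq] at h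
  exact h

variable {k : Type*} [Field k] [Algebra k A] [IsLocalRing A]

theorem length_residue (hres : ∀ a : A, ∃ c : k, a - algebraMap k A c ∈ maximalIdeal A) :
    Module.length (ResidueField k) (ResidueField A) = 1 := by
  have hs : Function.Surjective (algebraMap (ResidueField k) (ResidueField A)) := by
    intro z
    obtain ⟨a, rfl⟩ := residue_surjective z
    obtain ⟨c, hc⟩ := hres a
    refine ⟨residue k c, ?_⟩
    have : residue A (a - algebraMap k A c) = 0 := (residue_eq_zero_iff _).2 hc
    rw [map_sub, sub_eq_zero] at this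
    rw [this]
    rfl
  rw [Module.length_eq_of_surjective (R := ResidueField A) (M := ResidueField A) hs]
  exact Module.length_eq_one _ _

theorem length_eq_finrank (hres : ∀ a : A, ∃ c : k, a - algebraMap k A c ∈ maximalIdeal A)
    (M : Type*) [AddCommGroup M] [Module A M] [Module k M] [IsScalarTower k A M]
    [Module.Finite k M] : Module.length A M = Module.finrank k M := by
  have h0 : IsLocalHom (algebraMap k A) := inferInstance
  have h1 := IsLocalRing.length_restrictScalars k A M
  have h2 := length_residue hres
  rw [h2, mul_one] at h1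
  rw [← h1, Module.length_eq_finrank]

end Length

section PS

variable {k : Type*} [Field k]

theorem maximalIdeal_mvPowerSeries :
    maximalIdeal (MvPowerSeries (Fin 2) k) =
      Ideal.span {MvPowerSeries.X 0, MvPowerSeries.X 1} := by
  apply le_antisymm
  · intro f hf
    have h0 : MvPowerSeries.constantCoeff f = 0 := by
      by_contra h
      exact (mem_maximalIdeal _).1 hf
        (MvPowerSeries.isUnit_iff_constantCoeff.2 (isUnit_iff_ne_zero.2 h))
    classical
    let f1 : MvPowerSeries (Fin 2) k := fun n => if n 0 = 0 then 0 else MvPowerSeries.coeff n f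
    have c1 : ∀ n, MvPowerSeries.coeff n f1 =
        if n 0 = 0 then 0 else MvPowerSeries.coeff n f := fun n => rfl
    have d1 : (MvPowerSeries.X 0 : MvPowerSeries (Fin 2) k) ∣ f1 := by
      rw [MvPowerSeries.X_dvd_iff]
      intro m hm
      rw [c1, if_pos hm]
    have d2 : (MvPowerSeries.X 1 : MvPowerSeries (Fin 2) k) ∣ f - f1 := by
      rw [MvPowerSeries.X_dvd_iff]
      intro m hm
      rw [map_sub, c1]
      by_cases h : m 0 = 0
      · rw [if_pos h, sub_zero]
        have : m = 0 := by
          ext i
          fin_cases i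
          · exact h
          · exact hm
        rw [this]
        exact h0
      · rw [if_neg h, sub_self]
    obtain ⟨g, hg⟩ := d1
    obtain ⟨h, hh⟩ := d2
    rw [Ideal.mem_span_pair]
    refine ⟨g, h, ?_⟩
    rw [mul_comm g, mul_comm h, ← hg, ← hh]
    ring
  · rw [Ideal.span_le]
    intro z hz
    rw [SetLike.mem_coe, mem_maximalIdeal, mem_nonunits_iff, MvPowerSeries.isUnit_iff_constantCoeff]
    rcases hz with rfl | rfl <;> simp

variable {J : Ideal (MvPowerSeries (Fin 2) k)} [IsLocalRing (MvPowerSeries (Fin 2) k ⧸ J)]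

theorem maximalIdeal_quot :
    maximalIdeal (MvPowerSeries (Fin 2) k ⧸ J) =
      Ideal.span {Ideal.Quotient.mk J (MvPowerSeries.X 0),
        Ideal.Quotient.mk J (MvPowerSeries.X 1)} := by
  have h := IsLocalRing.map_maximalIdeal_of_surjective (Ideal.Quotient.mk J)
    Ideal.Quotient.mk_surjective
  rw [← h, maximalIdeal_mvPowerSeries, Ideal.map_span]
  congr 1
  ext z
  simp only [Set.mem_image, Set.mem_insert_iff, Set.mem_singleton_iff]
  constructor
  · rintro ⟨w, rfl | rfl, rfl⟩ <;> simp
  · rintro (rfl | rfl)
    · exact ⟨_, Or.inl rfl, rfl⟩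
    · exact ⟨_, Or.inr rfl, rfl⟩

theorem residue_quot (a : MvPowerSeries (Fin 2) k ⧸ J) :
    ∃ c : k, a - algebraMap k _ c ∈ maximalIdeal (MvPowerSeries (Fin 2) k ⧸ J) := by
  obtain ⟨f, rfl⟩ := Ideal.Quotient.mk_surjective a
  refine ⟨MvPowerSeries.constantCoeff f, ?_⟩
  have h := IsLocalRing.map_maximalIdeal_of_surjective (Ideal.Quotient.mk J)
    Ideal.Quotient.mk_surjective
  rw [← h]
  have e : Ideal.Quotient.mk J f - algebraMap k _ (MvPowerSeries.constantCoeff f) =
      Ideal.Quotient.mk J (f - MvPowerSeries.C (MvPowerSeries.constantCoeff f)) := by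
    rw [map_sub]
    rfl
  rw [e]
  apply Ideal.mem_map_of_mem
  rw [mem_maximalIdeal, mem_nonunits_iff, MvPowerSeries.isUnit_iff_constantCoeff]
  simp

end PS

section Gor

variable {k A : Type*} [Field k] [CommRing A] [Algebra k A] [IsLocalRing A]

theorem finite_of_artinian [IsArtinianRing A]
    (hres : ∀ a : A, ∃ c : k, a - algebraMap k A c ∈ maximalIdeal A) : FiniteDimensional k A := by
  have h0 : IsLocalHom (algebraMap k A) := inferInstance
  have h1 := IsLocalRing.length_restrictScalars k A A
  have h2 := length_residue hres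
  rw [h2, mul_one] at h1
  have h3 : Module.length k A ≠ ⊤ := by
    rw [h1]
    exact Module.length_ne_top
  have h4 := (isFiniteLength_iff_isNoetherian_isArtinian.1 (Module.length_ne_top_iff.1 h3)).1
  exact inferInstance

theorem exists_functional [IsArtinianRing A]
    (hsoc : IsSimpleModule A (Submodule.annihilator (maximalIdeal A))) :
    ∃ φ : A →ₗ[k] k, ∀ a : A, a ≠ 0 → ∃ b, φ (a * b) ≠ 0 := by
  have hne : Submodule.annihilator (maximalIdeal A) ≠ ⊥ := by
    intro h
    rw [h] at hsoc
    exact not_nontrivial _ hsoc.nontrivial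
  obtain ⟨s, hs, hs0⟩ := Submodule.exists_mem_ne_zero_of_ne_bot hne
  obtain ⟨φ, hφ⟩ : ∃ φ : Module.Dual k A, φ s ≠ 0 := by
    by_contra hcon
    push Not at hcon
    exact hs0 ((Module.forall_dual_apply_eq_zero_iff k s).1 hcon)
  refine ⟨φ, fun a ha => ?_⟩
  have hspan : Ideal.span {a} ≠ ⊥ := by
    rwa [Ne, Ideal.span_singleton_eq_bot]
  obtain ⟨T, hT, hTa⟩ := (eq_bot_or_exists_atom_le (Ideal.span {a})).resolve_left hspan
  have hTm : maximalIdeal A • T = ⊥ := by
    have hle : maximalIdeal A • T ≤ T := Submodule.smul_le_right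
    rcases hT.le_iff.1 hle with h | h
    · exact h
    · exfalso
      apply hT.1
      apply Submodule.eq_bot_of_le_smul_of_le_jacobson_bot (maximalIdeal A) T _ h.ge
      · rw [IsLocalRing.jacobson_eq_maximalIdeal _ bot_ne_top]
      · exact IsNoetherian.noetherian T
  have hTs : T ≤ Submodule.annihilator (maximalIdeal A) := by
    intro t ht
    rw [Submodule.mem_annihilator]
    intro m hm
    have : m • t ∈ maximalIdeal A • T := Submodule.smul_mem_smul hm ht
    rw [hTm, Submodule.mem_bot] at this
    rw [smul_eq_mul] at this ⊢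
    rw [mul_comm, this]
  have hsimple : IsAtom (Submodule.annihilator (maximalIdeal A)) := isSimpleModule_iff_isAtom.1 hsoc
  have hTeq : T = Submodule.annihilator (maximalIdeal A) :=
    (hsimple.le_iff.1 hTs).resolve_left hT.1
  have hsa : s ∈ Ideal.span {a} := hTa (hTeq ▸ hs)
  obtain ⟨b, rfl⟩ := Ideal.mem_span_singleton'.1 hsa
  exact ⟨b, by rwa [mul_comm]⟩

end Gor

section Xy

variable {k A : Type*} [Field k] [CommRing A] [Algebra k A] [IsLocalRing A]

theorem const_zero {c : k} (h : algebraMap k A c ∈ maximalIdeal A) : c = 0 := by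
  by_contra hc
  exact (mem_maximalIdeal _).1 h ((IsUnit.mk0 c hc).map (algebraMap k A))

/-- If `ℓ(A/I) = 2` and `𝔪 = (y, w)` with `y ∉ I`, then `𝔪 = (x, y)` and `I = (x, y²)`. -/
theorem shape_aux (hres : ∀ a : A, ∃ c : k, a - algebraMap k A c ∈ maximalIdeal A)
    {y w : A} (hm : maximalIdeal A = Ideal.span {y, w}) {I : Ideal A} (hI : I ≤ maximalIdeal A)
    (h2 : Module.length A (A ⧸ I) = 2) (hy : y ∉ I) :
    ∃ x, maximalIdeal A = Ideal.span {x, y} ∧ I = Ideal.span {x, y ^ 2} := by
  have hym : y ∈ maximalIdeal A := by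
    rw [hm]; exact Ideal.subset_span (by simp)
  have hwm : w ∈ maximalIdeal A := by
    rw [hm]; exact Ideal.subset_span (by simp)
  -- finite dimensionality of the quotient
  have h0 : IsLocalHom (algebraMap k A) := inferInstance
  have hlen := IsLocalRing.length_restrictScalars k A (A ⧸ I)
  have h2' := length_residue hres
  rw [h2', mul_one, h2] at hlen
  have hfin : Module.Finite k (A ⧸ I) := by
    have h3 : Module.length k (A ⧸ I) ≠ ⊤ := by rw [hlen]; decide
    have h4 := (isFiniteLength_iff_isNoetherian_isArtinian.1 (Module.length_ne_top_iff.1 h3)).1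
    exact inferInstance
  have hrank : finrank k (A ⧸ I) = 2 := by
    rw [Module.length_eq_finrank] at hlen
    exact_mod_cast hlen
  -- the basis 1, y
  have hli : LinearIndependent k ![(Ideal.Quotient.mk I 1 : A ⧸ I), Ideal.Quotient.mk I y] := by
    rw [LinearIndependent.pair_iff]
    intro s t hst
    have hmem : algebraMap k A s + algebraMap k A t * y ∈ I := by
      rw [← Ideal.Quotient.eq_zero_iff_mem, map_add, map_mul]
      rw [Algebra.smul_def, Algebra.smul_def, map_one, mul_one] at hst
      exact hst
    have hs : s = 0 := by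
      apply const_zero (A := A)
      have := Ideal.sub_mem _ (hI hmem) (Ideal.mul_mem_left _ (algebraMap k A t) hym)
      rwa [add_sub_cancel_right] at this
    subst hs
    refine ⟨rfl, ?_⟩
    by_contra ht
    apply hy
    rw [map_zero, zero_add] at hmem
    have := Ideal.mul_mem_left I (algebraMap k A t⁻¹) hmem
    rwa [← mul_assoc, ← map_mul, inv_mul_cancel₀ ht, map_one, one_mul] at this
  have hspan := hli.span_eq_top_of_card_eq_finrank' (by simp [hrank])
  have hdec : ∀ z ∈ maximalIdeal A, ∃ b : k, z - algebraMap k A b * y ∈ I := by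
    intro z hz
    have hz' : Ideal.Quotient.mk I z ∈ Submodule.span k
        (Set.range ![(Ideal.Quotient.mk I 1 : A ⧸ I), Ideal.Quotient.mk I y]) := by
      rw [hspan]; trivial
    rw [Matrix.range_cons, Matrix.range_cons, Matrix.range_empty, Set.union_empty,
      Set.singleton_union, Submodule.mem_span_pair] at hz'
    obtain ⟨a, b, hab⟩ := hz'
    have hmem : algebraMap k A a + algebraMap k A b * y - z ∈ I := by
      rw [← Ideal.Quotient.eq_zero_iff_mem, map_sub, map_add, map_mul, sub_eq_zero, ← hab]
      rw [Algebra.smul_def, Algebra.smul_def, map_one, mul_one]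
      rfl
    have ha : a = 0 := by
      apply const_zero (A := A)
      have h3 := Ideal.add_mem _ (hI hmem) hz
      rw [sub_add_cancel] at h3
      have := Ideal.sub_mem _ h3 (Ideal.mul_mem_left _ (algebraMap k A b) hym)
      rwa [add_sub_cancel_right] at this
    subst ha
    refine ⟨b, ?_⟩
    rw [map_zero, zero_add] at hmem
    have := I.neg_mem hmem
    rwa [neg_sub] at this
  obtain ⟨c, hc⟩ := hdec w hwm
  obtain ⟨b, hb⟩ := hdec (y ^ 2) (by rw [pow_two]; exact Ideal.mul_mem_left _ _ hym)
  have hb0 : b = 0 := by
    by_contra hb0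
    apply hy
    have hu : IsUnit (y - algebraMap k A b) := by
      by_contra hn
      apply hb0
      apply const_zero (A := A)
      have := Ideal.sub_mem _ hym ((mem_maximalIdeal _).2 hn)
      rwa [sub_sub_cancel] at this
    have e : y ^ 2 - algebraMap k A b * y = (y - algebraMap k A b) * y := by ring
    rw [e] at hb
    exact (Ideal.unit_mul_mem_iff_mem I hu).1 hb
  rw [hb0, map_zero, zero_mul, sub_zero] at hb
  refine ⟨w - algebraMap k A c * y, ?_, ?_⟩
  · rw [hm]
    apply le_antisymm
    · rw [Ideal.span_le]
      rintro z (rfl | rfl)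
      · exact Ideal.subset_span (by simp)
      · rw [SetLike.mem_coe, Ideal.mem_span_pair]
        exact ⟨1, algebraMap k A c, by ring⟩
    · rw [Ideal.span_le]
      rintro z (rfl | rfl)
      · rw [SetLike.mem_coe, Ideal.mem_span_pair]
        exact ⟨- algebraMap k A c, 1, by ring⟩
      · exact Ideal.subset_span (by simp)
  · set x := w - algebraMap k A c * y with hx
    have hmx : maximalIdeal A = Ideal.span {x, y} := by
      rw [hm]
      apply le_antisymm
      · rw [Ideal.span_le]
        rintro z (rfl | rfl)
        · exact Ideal.subset_span (by simp)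
        · rw [SetLike.mem_coe, Ideal.mem_span_pair]
          exact ⟨1, algebraMap k A c, by rw [hx]; ring⟩
      · rw [Ideal.span_le]
        rintro z (rfl | rfl)
        · rw [SetLike.mem_coe, Ideal.mem_span_pair]
          exact ⟨- algebraMap k A c, 1, by rw [hx]; ring⟩
        · exact Ideal.subset_span (by simp)
    apply le_antisymm
    · intro z hz
      have hzm := hI hz
      rw [hmx, Ideal.mem_span_pair] at hzm
      obtain ⟨p, q, hpq⟩ := hzm
      obtain ⟨d, hd⟩ := hres q
      rw [hmx, Ideal.mem_span_pair] at hd
      obtain ⟨r, s, hrs⟩ := hd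
      have hq : q = algebraMap k A d + (r * x + s * y) := by rw [hrs]; ring
      have hmem : (p + r * y) * x + s * y ^ 2 ∈ Ideal.span {x, y ^ 2} :=
        Ideal.mem_span_pair.2 ⟨_, _, rfl⟩
      have hz' : z = (p + r * y) * x + s * y ^ 2 + algebraMap k A d * y := by
        rw [← hpq, hq]; ring
      have hle : Ideal.span {x, y ^ 2} ≤ I := by
        rw [Ideal.span_le]
        rintro z (rfl | rfl)
        · exact hc
        · exact hb
      have hd0 : d = 0 := by
        by_contra hd0
        apply hy
        have h3 := Ideal.sub_mem _ hz (hle hmem)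
        rw [hz', add_sub_cancel_left] at h3
        have := Ideal.mul_mem_left I (algebraMap k A d⁻¹) h3
        rwa [← mul_assoc, ← map_mul, inv_mul_cancel₀ hd0, map_one, one_mul] at this
      rw [hz', hd0, map_zero, zero_mul, add_zero]
      exact hmem
    · rw [Ideal.span_le]
      rintro z (rfl | rfl)
      · exact hc
      · exact hb

theorem exists_shape (hres : ∀ a : A, ∃ c : k, a - algebraMap k A c ∈ maximalIdeal A)
    {w₁ w₂ : A} (hm : maximalIdeal A = Ideal.span {w₁, w₂}) {I : Ideal A}
    (h2 : Module.length A (A ⧸ I) = 2) :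
    ∃ x y, maximalIdeal A = Ideal.span {x, y} ∧ I = Ideal.span {x, y ^ 2} := by
  have hne : I ≠ ⊤ := by
    rintro rfl
    rw [Module.length_eq_zero] at h2
    exact absurd h2 (by decide)
  have hI : I ≤ maximalIdeal A := le_maximalIdeal hne
  by_cases h1 : w₁ ∈ I
  · by_cases h3 : w₂ ∈ I
    · exfalso
      have : I = maximalIdeal A := by
        apply le_antisymm hI
        rw [hm, Ideal.span_le]
        rintro z (rfl | rfl)
        · exact h1
        · exact h3
      rw [this] at h2
      have hs : IsSimpleModule A (A ⧸ maximalIdeal A) :=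
        isSimpleModule_iff_isCoatom.2 (maximalIdeal.isMaximal A).out
      rw [Module.length_eq_one] at h2
      exact absurd h2 (by decide)
    · obtain ⟨x, hx⟩ := shape_aux hres (by rw [hm, Set.pair_comm]) hI h2 h3
      exact ⟨x, w₂, hx⟩
  · obtain ⟨x, hx⟩ := shape_aux hres hm hI h2 h1
    exact ⟨x, w₁, hx⟩

end Xy

end Pool.Agent.H68.SymDec
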