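import Mathlib

/-!
# Numerical part: the shape of the partial sums of a symmetric decomposition

`t V j` stands for the length of `F^j / (F^(j+1) + F^j ∩ (0 : F^(V-j)))`, where `F^w` is the
filtration by weights (weight of `x` is two, weight of `y` is one).
-/

namespace Pool.Agent.H68.SymDec

/-- The numerical properties of the partial sums of the symmetric decomposition. -/
structure Sys (t : ℕ → ℕ → ℕ) : Prop where
  le : ∀ V j, t V j ≤ j / 2 + 1
  ex : ∀ V, ∃ j, t V j < j / 2 + 1
  h1 : ∀ V j, t V (j + 1) + (j / 2 + 1) ≤ t V j + ((j + 1) / 2 + 1)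
  h2 : ∀ V j, t V j < j / 2 + 1 → t V (j + 2) ≤ t V j
  mono : ∀ V j, t (V + 1) j ≤ t V j
  sym : ∀ V j, j ≤ V → t V j + t (V + 1) (V - j) = t V (V - j) + t (V + 1) j
  fin : ∃ N, ∀ V, N ≤ V → ∀ j, j ≤ V → t V j = 0

/-- The expected value of `t V j` in terms of the initial degree `d`. -/
def phi (d j : ℕ) : ℕ := min (j / 2 + 1) ((d + 1 - j % 2) / 2)

/-- The initial degree. -/
noncomputable def del {t : ℕ → ℕ → ℕ} (h : Sys t) (V : ℕ) : ℕ := Nat.find (h.ex V)

variable {t : ℕ → ℕ → ℕ} (h : Sys t)
include h

theorem full_of_lt {V j : ℕ} (hj : j < del h V) : t V j = j / 2 + 1 := by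
  have h1 := Nat.find_min (h.ex V) hj
  have h2 := h.le V j
  omega

theorem lt_of_del_le {V j : ℕ} (hj : del h V ≤ j) : t V j < j / 2 + 1 := by
  induction j, hj using Nat.le_induction with
  | base => exact Nat.find_spec (h.ex V)
  | succ j hj ih =>
    have := h.h1 V j
    omega

theorem del_anti (V : ℕ) : del h (V + 1) ≤ del h V := by
  by_contra hc
  push Not at hc
  have h1 := full_of_lt h hc
  have h2 := lt_of_del_le h (le_refl (del h V))
  have h3 := h.mono V (del h V)
  omega

/-- The shape statement. -/
def P (V : ℕ) : Prop := ∀ j, (j + del h V ≤ V ∨ 2 * j ≤ V + 1) → t V j = phi (del h V) j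

omit h in
theorem phi_add_two {d j : ℕ} (hj : d ≤ j) : phi d (j + 2) = phi d j := by
  unfold phi; omega

theorem K {V : ℕ} (hP : P h (V + 1)) {j : ℕ} (hj : del h V ≤ j) (hj2 : j + 2 + del h V ≤ V) :
    t V (j + 2) = t V j := by
  have hd := del_anti h V
  have a1 := h.h2 V j (lt_of_del_le h hj)
  have hq : del h V ≤ V - (j + 2) := by omega
  have a2 := h.h2 V (V - (j + 2)) (lt_of_del_le h hq)
  have e : V - (j + 2) + 2 = V - j := by omega
  rw [e] at a2
  have s1 := h.sym V j (by omega)
  have s2 := h.sym V (j + 2) (by omega)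
  have p1 := hP j (Or.inl (by omega))
  have p2 := hP (j + 2) (Or.inl (by omega))
  have p3 := hP (V - j) (Or.inl (by omega))
  have p4 := hP (V - (j + 2)) (Or.inl (by omega))
  have q1 : phi (del h (V + 1)) (j + 2) = phi (del h (V + 1)) j := phi_add_two (by omega)
  have q2 : phi (del h (V + 1)) (V - j) = phi (del h (V + 1)) (V - (j + 2)) := by
    rw [← e]; exact phi_add_two (by omega)
  omega

theorem chain {V : ℕ} : ∀ (n j : ℕ), del h V ≤ j → t V (j + 2 * n) ≤ t V j := by
  intro n
  induction n with
  | zero => intro j _; simp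
  | succ n ih =>
    intro j hj
    have h1 := ih j hj
    have h2 := h.h2 V (j + 2 * n) (lt_of_del_le h (by omega))
    have e : j + 2 * n + 2 = j + 2 * (n + 1) := by ring
    rw [e] at h2
    omega

theorem Kchain {V : ℕ} (hP : P h (V + 1)) : ∀ (n j : ℕ), del h V ≤ j →
    j + 2 * n + del h V ≤ V → t V (j + 2 * n) = t V j := by
  intro n
  induction n with
  | zero => intro j _ _; simp
  | succ n ih =>
    intro j hj hj2
    have h1 := ih j hj (by omega)
    have h2 := K h hP (j := j + 2 * n) (by omega) (by omega)
    have e : j + 2 * n + 2 = j + 2 * (n + 1) := by ring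
    rw [e] at h2
    omega

/-- The value at the initial degree. -/
theorem M0 {V : ℕ} (hP : P h (V + 1)) (hd : 2 * del h V ≤ V + 1) :
    t V (del h V) = del h V / 2 := by
  have hda := del_anti h V
  have hlt := lt_of_del_le h (le_refl (del h V))
  generalize hdd : del h V = d at *
  rcases Nat.eq_zero_or_pos d with h0 | hpos
  · subst h0; omega
  have hs := h.sym V (d - 1) (by omega)
  have hf : t V (d - 1) = (d - 1) / 2 + 1 := full_of_lt h (by omega)
  have p1 := hP (V - (d - 1)) (Or.inl (by omega))
  have p2 := hP (d - 1) (Or.inr (by omega))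
  rcases Nat.even_or_odd' V with ⟨v, hv | hv⟩
  · -- V even
    have c := chain h (V := V) (v - d) (d + 1) (by omega)
    have e : d + 1 + 2 * (v - d) = V - (d - 1) := by omega
    rw [e] at c
    have g1 := h.h1 V d
    have q : phi (del h (V + 1)) (V - (d - 1)) ≥ phi (del h (V + 1)) (d - 1) := by
      unfold phi; omega
    omega
  · have c := chain h (V := V) (v + 1 - d) d (by omega)
    have e : d + 2 * (v + 1 - d) = V - (d - 1) := by omega
    rw [e] at c
    unfold phi at p1 p2
    omega

/-- The value next to the initial degree. -/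
theorem M1 {V : ℕ} (hP : P h (V + 1)) (hd : 2 * del h V + 1 ≤ V) :
    t V (del h V + 1) = (del h V + 1) / 2 := by
  have hda := del_anti h V
  have hlt := lt_of_del_le h (le_refl (del h V))
  have m0 := M0 h hP (by omega)
  have g1 := h.h1 V (del h V)
  generalize hdd : del h V = d at *
  rcases Nat.eq_zero_or_pos d with h0 | hpos
  · subst h0
    simp at *
    omega
  have hs := h.sym V (d - 1) (by omega)
  have hf : t V (d - 1) = (d - 1) / 2 + 1 := full_of_lt h (by omega)
  have p1 := hP (V - (d - 1)) (Or.inl (by omega))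
  have p2 := hP (d - 1) (Or.inr (by omega))
  rcases Nat.even_or_odd' V with ⟨v, hv | hv⟩
  · -- V even
    have c := chain h (V := V) (v - d) (d + 1) (by omega)
    have e : d + 1 + 2 * (v - d) = V - (d - 1) := by omega
    rw [e] at c
    have q : phi (del h (V + 1)) (V - (d - 1)) ≥ phi (del h (V + 1)) (d - 1) := by
      unfold phi; omega
    omega
  · have hs' := h.sym V d (by omega)
    have c := Kchain h hP (v - d) (d + 1) (by omega) (by omega)
    have e : d + 1 + 2 * (v - d) = V - d + 0 := by omega
    have c2 := chain h (V := V) (v + 1 - d) d (by omega)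
    have e2 : d + 2 * (v + 1 - d) = V - (d - 1) := by omega
    rw [e2] at c2
    rw [e] at c
    have p3 := hP (V - d) (Or.inl (by omega))
    have p4 := hP d (Or.inr (by omega))
    unfold phi at p1 p2 p3 p4
    simp only [Nat.add_zero] at c
    omega

theorem P_step {V : ℕ} (hP : P h (V + 1)) : P h V := by
  intro j hj
  by_cases hjd : j < del h V
  · rw [full_of_lt h hjd]; unfold phi; omega
  push Not at hjd
  by_cases hj0 : j = del h V
  · rw [hj0, M0 h hP (by omega)]; unfold phi; omega
  have hj2 : j + del h V ≤ V := by omega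
  rcases Nat.even_or_odd' (j - del h V) with ⟨n, hn | hn⟩
  · have e : j = del h V + 2 * n := by omega
    have := Kchain h hP n (del h V) le_rfl (by omega)
    rw [← e, M0 h hP (by omega)] at this
    rw [this]; unfold phi; omega
  · have e : j = del h V + 1 + 2 * n := by omega
    have := Kchain h hP n (del h V + 1) (by omega) (by omega)
    rw [← e, M1 h hP (by omega)] at this
    rw [this]; unfold phi; omega

theorem P_all (V : ℕ) : P h V := by
  obtain ⟨N, hN⟩ := h.fin
  have key : ∀ n V, N ≤ V + n → P h V := by
    intro n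
    induction n with
    | zero =>
      intro V hV j hj
      have h0 : t V 0 = 0 := hN V (by omega) 0 (by omega)
      have hd : del h V = 0 := by
        have := Nat.find_min' (h.ex V) (m := 0) (by omega)
        unfold del; omega
      rw [hd] at hj ⊢
      rw [hN V (by omega) j (by omega)]
      unfold phi; omega
    | succ n ih =>
      intro V hV
      exact P_step h (ih (V + 1) (by omega))
  exact key N V (by omega)

end Pool.Agent.H68.SymDec
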