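import Pool.Agent.H68.SymDec.Filtration

/-!
# The ranks of the pairings form a rank system
-/

open Module Polynomial

namespace Pool.Agent.H68.SymDec

variable {k A : Type*} [Field k] [CommRing A] [Algebra k A] {x y : A}

theorem ev_mem_F (j : ℕ) (p : k[X]) : ev x y j p ∈ F x y j := by
  induction p using Polynomial.induction_on' with
  | add p q h1 h2 => rw [map_add]; exact Ideal.add_mem _ h1 h2
  | monomial α c =>
    rw [ev_monomial, Algebra.smul_def]
    exact Ideal.mul_mem_left _ _ (mem_F (by omega))

theorem F_decomp (hres : ∀ a : A, ∃ c : k, a - algebraMap k A c ∈ Ideal.span {x, y}) (j : ℕ) :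
    (F x y j).restrictScalars k =
      (F x y (j + 1)).restrictScalars k ⊔ (degreeLT k (j / 2 + 1)).map (ev x y j) := by
  apply le_antisymm
  · intro z hz
    rw [Submodule.restrictScalars_mem] at hz
    unfold F at hz
    induction hz using Submodule.span_induction with
    | mem z hz =>
      obtain ⟨i, l, hil, rfl⟩ := hz
      rcases hil.eq_or_lt with h | h
      · apply Submodule.mem_sup_right
        refine ⟨X ^ i, ?_, ?_⟩
        · rw [SetLike.mem_coe, mem_degreeLT, degree_X_pow]
          norm_cast
          omega
        · rw [X_pow_eq_monomial, ev_monomial, one_smul, show j - 2 * i = l by omega]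
      · apply Submodule.mem_sup_left
        exact mem_F (by omega)
    | zero => exact Submodule.zero_mem _
    | add z w _ _ h1 h2 => exact Submodule.add_mem _ h1 h2
    | smul a z _ h =>
      obtain ⟨f, hf, _, ⟨p, hp, rfl⟩, rfl⟩ := Submodule.mem_sup.1 h
      obtain ⟨c, hc⟩ := hres a
      have e : a • (f + ev x y j p) =
          (a * f + (a - algebraMap k A c) * ev x y j p) + c • ev x y j p := by
        rw [smul_eq_mul, Algebra.smul_def]; ring
      rw [e]
      refine Submodule.add_mem_sup ?_ ?_
      · rw [Submodule.restrictScalars_mem] at hf ⊢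
        exact Ideal.add_mem _ (Ideal.mul_mem_left _ _ hf) (m_mul_mem hc (ev_mem_F j p))
      · exact Submodule.smul_mem _ _ ⟨p, hp, rfl⟩
  · refine sup_le ?_ ?_
    · intro z hz
      exact F_anti (Nat.le_succ j) hz
    · rintro _ ⟨p, _, rfl⟩
      exact ev_mem_F j p

theorem finrank_degreeLT (n : ℕ) : finrank k (degreeLT k n) = n := by
  rw [(degreeLTEquiv k n).finrank_eq]; simp

instance (n : ℕ) : FiniteDimensional k (degreeLT k n) :=
  (degreeLTEquiv k n).symm.finiteDimensional

theorem finite_of_F (hres : ∀ a : A, ∃ c : k, a - algebraMap k A c ∈ Ideal.span {x, y})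
    {N : ℕ} (hN : F x y N = ⊥) : FiniteDimensional k A := by
  have key : ∀ n, n ≤ N → ((F x y (N - n)).restrictScalars k).FG := by
    intro n
    induction n with
    | zero =>
      intro _
      rw [Nat.sub_zero, hN]
      have : (⊥ : Ideal A).restrictScalars k = ⊥ := by
        ext z; simp
      rw [this]
      exact Submodule.fg_bot
    | succ n ih =>
      intro hn
      rw [F_decomp hres, show N - (n + 1) + 1 = N - n by omega]
      refine Submodule.FG.sup (ih (by omega)) (Submodule.FG.map _ ?_)
      exact Module.Finite.iff_fg.1 inferInstance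
  have h0 := key N le_rfl
  rw [Nat.sub_self, F_zero] at h0
  have : (⊤ : Ideal A).restrictScalars k = ⊤ := by
    ext z; simp
  rw [this] at h0
  exact ⟨h0⟩

theorem G_decomp (hres : ∀ a : A, ∃ c : k, a - algebraMap k A c ∈ Ideal.span {x, y}) (V j : ℕ) :
    (F x y j).restrictScalars k =
      (G x y V j).restrictScalars k ⊔ (degreeLT k (j / 2 + 1)).map (ev x y j) := by
  apply le_antisymm
  · rw [F_decomp hres j]
    refine sup_le_sup_right ?_ _
    intro z hz
    exact Ideal.mem_sup_left hz
  · refine sup_le ?_ ?_
    · intro z hz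
      have : G x y V j ≤ F x y j := sup_le (F_anti (Nat.le_succ j)) inf_le_left
      exact this hz
    · rintro _ ⟨p, _, rfl⟩
      exact ev_mem_F j p

/-- dimension of `F^i ∩ (0 : F^l)` -/
noncomputable def D (k : Type*) {A : Type*} [Field k] [CommRing A] [Algebra k A] (x y : A)
    (i l : ℕ) : ℕ :=
  finrank k ((F x y i).restrictScalars k ⊓
    (Submodule.annihilator (F x y l)).restrictScalars k : Submodule k A)

/-- rank of the pairing between `F^i` and `F^l` -/
noncomputable def R (k : Type*) {A : Type*} [Field k] [CommRing A] [Algebra k A] (x y : A)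
    (i l : ℕ) : ℕ :=
  finrank k ((F x y i).restrictScalars k) - D k x y i l

section

variable [FiniteDimensional k A]

theorem D_le (i l : ℕ) : D k x y i l ≤ finrank k ((F x y i).restrictScalars k) :=
  Submodule.finrank_mono inf_le_left

theorem R_symm {φ : A →ₗ[k] k} (hφ : ∀ a : A, a ≠ 0 → ∃ b, φ (a * b) ≠ 0) (i l : ℕ) :
    R k x y i l = R k x y l i := by
  have h := rank_symm hφ ((F x y i).restrictScalars k) ((F x y l).restrictScalars k)
  rw [orthogonal_ideal hφ, orthogonal_ideal hφ] at h
  have h1 := D_le (k := k) (x := x) (y := y) i l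
  have h2 := D_le (k := k) (x := x) (y := y) l i
  unfold R
  change _ + D k x y l i = _ + D k x y i l at h
  omega

theorem finrank_G (V j : ℕ) :
    finrank k ((G x y V j).restrictScalars k) + D k x y (j + 1) (V - j) =
      finrank k ((F x y (j + 1)).restrictScalars k) + D k x y j (V - j) := by
  have h := Submodule.finrank_sup_add_finrank_inf_eq ((F x y (j + 1)).restrictScalars k)
    ((F x y j).restrictScalars k ⊓
    (Submodule.annihilator (F x y (V - j))).restrictScalars k : Submodule k A)
  have e1 : (F x y (j + 1)).restrictScalars k ⊔ ((F x y j).restrictScalars k ⊓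
    (Submodule.annihilator (F x y (V - j))).restrictScalars k : Submodule k A) =
      (G x y V j).restrictScalars k := by
    ext z
    rw [Submodule.restrictScalars_mem]
    unfold G
    rw [Submodule.mem_sup, Submodule.mem_sup]
    rfl
  have e2 : (F x y (j + 1)).restrictScalars k ⊓ ((F x y j).restrictScalars k ⊓
    (Submodule.annihilator (F x y (V - j))).restrictScalars k : Submodule k A) =
      (F x y (j + 1)).restrictScalars k ⊓
        (Submodule.annihilator (F x y (V - j))).restrictScalars k := by
    rw [← inf_assoc]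
    congr 1
    rw [inf_eq_left]
    intro z hz
    exact F_anti (Nat.le_succ j) hz
  rw [e1, e2] at h
  exact h

theorem finrank_J (hres : ∀ a : A, ∃ c : k, a - algebraMap k A c ∈ Ideal.span {x, y})
    (V j : ℕ) :
    finrank k (J k x y V j) + R k x y j (V - j) = j / 2 + 1 + R k x y (j + 1) (V - j) := by
  have h1 := dimJ (G_decomp (k := k) hres V j)
  have h2 := finrank_G (k := k) (x := x) (y := y) V j
  have h3 := D_le (k := k) (x := x) (y := y) j (V - j)
  have h4 := D_le (k := k) (x := x) (y := y) (j + 1) (V - j)
  rw [finrank_degreeLT] at h1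
  unfold R
  change finrank k (J k x y V j) + _ = _ at h1
  omega

instance (V j : ℕ) : FiniteDimensional k (J k x y V j) :=
  Submodule.finiteDimensional_inf_left _ _

omit [FiniteDimensional k A] in
theorem J_strict {V j : ℕ} (h : 0 < finrank k (J k x y V j)) :
    finrank k (J k x y V j) < finrank k (J k x y V (j + 2)) := by
  apply Submodule.finrank_lt_finrank_of_lt
  have hle : J k x y V j ≤ J k x y V (j + 2) := (J_le_succ V j).trans (J_le_succ V (j + 1))
  refine lt_of_le_of_ne hle ?_
  intro heq
  -- a nonzero element of maximal degree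
  have hne : J k x y V j ≠ ⊥ := by
    intro h0
    rw [h0, finrank_bot] at h
    exact lt_irrefl _ h
  obtain ⟨p, hp, hp0⟩ := Submodule.exists_mem_ne_zero_of_ne_bot hne
  have hpow : ∀ n : ℕ, X ^ n * p ∈ J k x y V j := by
    intro n
    induction n with
    | zero => simpa using hp
    | succ n ih =>
      have := X_mul_mem_J ih
      rw [← heq] at this
      rwa [pow_succ', mul_assoc]
  have h1 := (hpow (j / 2 + 1)).1
  rw [SetLike.mem_coe, mem_degreeLT, degree_mul, degree_X_pow, degree_eq_natDegree hp0] at h1
  norm_cast at h1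
  omega

omit [FiniteDimensional k A] in
theorem J_mono (V j : ℕ) : J k x y V j ≤ J k x y (V + 1) j := by
  refine inf_le_inf_left _ (Submodule.comap_mono ?_)
  have : G x y V j ≤ G x y (V + 1) j := by
    refine sup_le_sup_left (inf_le_inf_left _ (Submodule.annihilator_mono (F_anti ?_))) _
    omega
  intro z hz
  exact this hz

theorem R_anti (hres : ∀ a : A, ∃ c : k, a - algebraMap k A c ∈ Ideal.span {x, y}) (i l : ℕ) :
    R k x y (i + 1) l ≤ R k x y i l := by
  have h1 := finrank_J (k := k) hres (i + l) i
  rw [Nat.add_sub_cancel_left] at h1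
  have h2 : finrank k (J k x y (i + l) i) ≤ i / 2 + 1 := by
    have : finrank k (J k x y (i + l) i) ≤ finrank k (degreeLT k (i / 2 + 1)) :=
      Submodule.finrank_mono inf_le_left
    rwa [finrank_degreeLT] at this
  omega

omit [FiniteDimensional k A] in
theorem R_zero {N : ℕ} (hN : F x y N = ⊥) {i l : ℕ} (h : N ≤ i + l) : R k x y i l = 0 := by
  unfold R D
  have : (F x y i).restrictScalars k ⊓ (Submodule.annihilator (F x y l)).restrictScalars k =
      (F x y i).restrictScalars k := by
    rw [inf_eq_left]
    intro z hz
    rw [Submodule.restrictScalars_mem, Submodule.mem_annihilator]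
    intro n hn
    have := F_anti h (mul_mem_F (show z ∈ F x y i from hz) hn)
    rwa [hN] at this
  rw [this, Nat.sub_self]

/-- the ranks form a rank system -/
theorem rsys (hres : ∀ a : A, ∃ c : k, a - algebraMap k A c ∈ Ideal.span {x, y})
    {N : ℕ} (hN : F x y N = ⊥) {φ : A →ₗ[k] k} (hφ : ∀ a : A, a ≠ 0 → ∃ b, φ (a * b) ≠ 0) :
    RSys (R k x y) := by
  have hJ := fun V j => finrank_J (k := k) hres V j
  have hA := fun i l => R_anti (k := k) hres i l
  have hle : ∀ V j, finrank k (J k x y V j) ≤ j / 2 + 1 := by
    intro V j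
    have : finrank k (J k x y V j) ≤ finrank k (degreeLT k (j / 2 + 1)) :=
      Submodule.finrank_mono inf_le_left
    rwa [finrank_degreeLT] at this
  have hZ : ∀ i l, N ≤ i + l → R k x y i l = 0 := fun i l h => R_zero hN h
  refine ⟨fun i l => R_symm hφ i l, hA, ?_, N, hZ⟩
  constructor
  · intro V j
    have h1 := hJ V j
    have h2 := hA j (V - j)
    omega
  · intro V
    refine ⟨N, ?_⟩
    rw [hZ N (V - N) (by omega)]
    omega
  · intro V j
    have h1 := hJ V j
    have h2 := hA j (V - j)
    have h3 := hJ V (j + 1)
    have h4 := hA (j + 1) (V - (j + 1))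
    have h5 : finrank k (J k x y V j) ≤ finrank k (J k x y V (j + 1)) :=
      Submodule.finrank_mono (J_le_succ V j)
    omega
  · intro V j h
    have h1 := hJ V j
    have h2 := hA j (V - j)
    have h3 := hJ V (j + 2)
    have h4 := hA (j + 2) (V - (j + 2))
    have h5 := J_strict (k := k) (x := x) (y := y) (V := V) (j := j) (by omega)
    omega
  · intro V j
    have h1 := hJ V j
    have h2 := hA j (V - j)
    have h3 := hJ (V + 1) j
    have h4 := hA j (V + 1 - j)
    have h5 : finrank k (J k x y V j) ≤ finrank k (J k x y (V + 1) j) :=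
      Submodule.finrank_mono (J_mono V j)
    omega
  · intro V j hj
    obtain ⟨l, rfl⟩ := Nat.exists_eq_add_of_le hj
    rw [Nat.add_sub_cancel_left, Nat.add_sub_cancel, show j + l + 1 - l = j + 1 by omega,
      show j + l + 1 - j = l + 1 by omega]
    have s1 := R_symm (x := x) (y := y) hφ l (j + 1)
    have s2 := R_symm (x := x) (y := y) hφ (l + 1) (j + 1)
    have s3 := R_symm (x := x) (y := y) hφ l j
    have s4 := R_symm (x := x) (y := y) hφ (l + 1) j
    have a1 := hA j l
    have a2 := hA j (l + 1)
    have a3 := hA l j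
    have a4 := hA l (j + 1)
    omega
  · refine ⟨N, fun V hV j hj => ?_⟩
    rw [hZ j (V - j) (by omega)]
    omega

end

end Pool.Agent.H68.SymDec
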