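import Pool.Agent.H68.SymDec.Numeric

/-!
# Numerical part: the Hilbert function determines the ranks

`R i l` stands for the rank of the pairing `F^i × F^l → k`.
-/

namespace Pool.Agent.H68.SymDec

/-- The numerical properties of the ranks of the pairings `F^i × F^l → k`. -/
structure RSys (R : ℕ → ℕ → ℕ) : Prop where
  symm : ∀ i l, R i l = R l i
  anti : ∀ i l, R (i + 1) l ≤ R i l
  sys : Sys (fun V j => R j (V - j) - R (j + 1) (V - j))
  fin : ∃ N, ∀ i l, N ≤ i + l → R i l = 0

theorem seg {p : ℕ → Prop} [DecidablePred p] (hp : ∀ r, p (r + 1) → p r) {n r : ℕ}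
    (hr : r < n) : p r ↔ r < Nat.count p n := by
  have down : ∀ a b, a ≤ b → p b → p a := by
    intro a b hab
    induction b, hab using Nat.le_induction with
    | base => exact id
    | succ b hb ih => exact fun h => ih (hp b h)
  constructor
  · intro h
    have h1 : Nat.count p (r + 1) = r + 1 := by
      have : ∀ s, s ≤ r + 1 → Nat.count p s = s := by
        intro s
        induction s with
        | zero => intro _; simp
        | succ s ih =>
          intro hs
          rw [Nat.count_succ, ih (by omega), if_pos (down s r (by omega) h)]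
      exact this _ le_rfl
    have h2 := Nat.count_monotone p (show r + 1 ≤ n from hr)
    omega
  · intro h
    by_contra hn
    have h1 : ∀ s, r ≤ s → Nat.count p s = Nat.count p r := by
      intro s hs
      induction s, hs using Nat.le_induction with
      | base => rfl
      | succ s hs ih =>
        rw [Nat.count_succ, if_neg (fun hps => hn (down r s hs hps)), ih]
        rfl
    have h2 := h1 n hr.le
    have h3 : Nat.count p r ≤ r := Nat.count_le _
    omega

namespace RSys

variable {R : ℕ → ℕ → ℕ} (h : RSys R)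
include h

/-- half of the initial degree, rounded up -/
noncomputable def A (m : ℕ) : ℕ := (del h.sys (2 * m) + 1) / 2
/-- half of the initial degree, rounded down -/
noncomputable def B (m : ℕ) : ℕ := del h.sys (2 * m + 1) / 2

theorem B_le_A (m : ℕ) : h.B m ≤ h.A m := by
  have := del_anti h.sys (2 * m)
  unfold A B; omega

theorem A_succ_le (m : ℕ) : h.A (m + 1) ≤ h.B m + 1 := by
  have := del_anti h.sys (2 * m + 1)
  unfold A B
  have e : 2 * (m + 1) = 2 * m + 1 + 1 := by ring
  rw [e]; omega

theorem A_anti (m : ℕ) : h.A (m + 1) ≤ h.A m := by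
  have h1 := del_anti h.sys (2 * m)
  have h2 := del_anti h.sys (2 * m + 1)
  unfold A
  have e : 2 * (m + 1) = 2 * m + 1 + 1 := by ring
  rw [e]; omega

theorem B_anti (m : ℕ) : h.B (m + 1) ≤ h.B m := by
  have h1 := del_anti h.sys (2 * m + 1)
  have h2 := del_anti h.sys (2 * m + 1 + 1)
  unfold B
  have e : 2 * (m + 1) + 1 = 2 * m + 1 + 1 + 1 := by ring
  rw [e]; omega

/-- The coarse differences. -/
theorem coarse {i l : ℕ} (hil : i ≤ l) :
    R (2 * i) (2 * l) = R (2 * (i + 1)) (2 * l) +
      (min (i + 1) (h.A (i + l)) + min (i + 1) (h.B (i + l))) := by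
  have p1 := P_all h.sys (2 * (i + l)) (2 * i) (Or.inr (by omega))
  have p2 := P_all h.sys (2 * (i + l) + 1) (2 * i + 1) (Or.inr (by omega))
  have e1 : 2 * (i + l) - 2 * i = 2 * l := by omega
  have e2 : 2 * (i + l) + 1 - (2 * i + 1) = 2 * l := by omega
  have e3 : 2 * (i + 1) = 2 * i + 1 + 1 := by ring
  simp only [e1] at p1
  simp only [e2] at p2
  have a1 := h.anti (2 * i) (2 * l)
  have a2 := h.anti (2 * i + 1) (2 * l)
  rw [e3]
  unfold phi at p1 p2
  unfold A B
  omega

theorem formula (i : ℕ) : ∀ n, n ≤ i + 1 →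
    R 0 (2 * i) + R (2 * n) (2 * (i + 1)) + (min n (h.A (i + n)) + min n (h.B (i + n))) =
      R (2 * n) (2 * i) + R 0 (2 * (i + 1)) +
        (Nat.count (fun r => r + 1 ≤ h.A (i + r)) n + Nat.count (fun r => r + 1 ≤ h.B (i + r)) n) := by
  intro n
  induction n with
  | zero => intro _; simp [add_comm]
  | succ n ih =>
    intro hn
    have ih' := ih (by omega)
    have c1 := h.coarse (i := n) (l := i) (by omega)
    have c2 := h.coarse (i := n) (l := i + 1) (by omega)
    have e1 : n + i = i + n := by omega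
    have e2 : n + (i + 1) = i + (n + 1) := by omega
    rw [e1] at c1
    rw [e2] at c2
    rw [Nat.count_succ, Nat.count_succ]
    split_ifs with h1 h2 h2 <;> omega

theorem hilb (i : ℕ) : R (2 * i) 0 = R (2 * (i + 1)) 0 +
    (Nat.count (fun r => r + 1 ≤ h.A (i + r)) (i + 1) +
      Nat.count (fun r => r + 1 ≤ h.B (i + r)) (i + 1)) := by
  have f := h.formula i (i + 1) le_rfl
  have c := h.coarse (i := i) (l := i + 1) (by omega)
  rw [h.symm (2 * i) 0, h.symm (2 * (i + 1)) 0]
  have s := h.symm (2 * (i + 1)) (2 * i)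
  omega

end RSys

theorem counts {R R' : ℕ → ℕ → ℕ} (h : RSys R) (h' : RSys R')
    (heq : ∀ i, R (2 * i) 0 - R (2 * (i + 1)) 0 = R' (2 * i) 0 - R' (2 * (i + 1)) 0) {i r : ℕ}
    (hr : r ≤ i) :
    ((r + 1 ≤ h.A (i + r)) ↔ (r + 1 ≤ h'.A (i + r))) ∧
      ((r + 1 ≤ h.B (i + r)) ↔ (r + 1 ≤ h'.B (i + r))) := by
  have f := h.hilb i
  have f' := h'.hilb i
  have e := heq i
  -- the four segments
  have key : ∀ {R : ℕ → ℕ → ℕ} (h : RSys R),
      (∀ r, r < i + 1 → ((r + 1 ≤ h.A (i + r)) ↔
        r < Nat.count (fun r => r + 1 ≤ h.A (i + r)) (i + 1))) ∧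
      (∀ r, r < i + 1 → ((r + 1 ≤ h.B (i + r)) ↔
        r < Nat.count (fun r => r + 1 ≤ h.B (i + r)) (i + 1))) ∧
      Nat.count (fun r => r + 1 ≤ h.B (i + r)) (i + 1) ≤
        Nat.count (fun r => r + 1 ≤ h.A (i + r)) (i + 1) ∧
      Nat.count (fun r => r + 1 ≤ h.A (i + r)) (i + 1) ≤
        Nat.count (fun r => r + 1 ≤ h.B (i + r)) (i + 1) + 1 := by
    intro R h
    have sA : ∀ r, r < i + 1 → ((r + 1 ≤ h.A (i + r)) ↔
        r < Nat.count (fun r => r + 1 ≤ h.A (i + r)) (i + 1)) := by
      intro r hr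
      refine seg (p := fun r => r + 1 ≤ h.A (i + r)) ?_ hr
      intro r hr
      have := h.A_anti (i + r)
      have e : i + (r + 1) = i + r + 1 := by ring
      simp only [e] at hr
      omega
    have sB : ∀ r, r < i + 1 → ((r + 1 ≤ h.B (i + r)) ↔
        r < Nat.count (fun r => r + 1 ≤ h.B (i + r)) (i + 1)) := by
      intro r hr
      refine seg (p := fun r => r + 1 ≤ h.B (i + r)) ?_ hr
      intro r hr
      have := h.B_anti (i + r)
      have e : i + (r + 1) = i + r + 1 := by ring
      simp only [e] at hr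
      omega
    have cA : Nat.count (fun r => r + 1 ≤ h.A (i + r)) (i + 1) ≤ i + 1 := Nat.count_le _
    have cB : Nat.count (fun r => r + 1 ≤ h.B (i + r)) (i + 1) ≤ i + 1 := Nat.count_le _
    refine ⟨sA, sB, ?_, ?_⟩
    · by_contra hc
      push Not at hc
      generalize hα : Nat.count (fun r => r + 1 ≤ h.A (i + r)) (i + 1) = α at *
      have h1 := (sB α (by omega)).2 hc
      have h2 := h.B_le_A (i + α)
      have h3 := (sA α (by omega)).1 (by omega)
      omega
    · by_contra hc
      push Not at hc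
      generalize hβ : Nat.count (fun r => r + 1 ≤ h.B (i + r)) (i + 1) = β at *
      have h1 := (sA (β + 1) (by omega)).2 (by omega)
      have h2 := h.A_succ_le (i + β)
      have e : i + (β + 1) = i + β + 1 := by ring
      rw [e] at h1
      have h3 := (sB β (by omega)).1 (by omega)
      omega
  obtain ⟨a1, a2, a3, a4⟩ := key h
  obtain ⟨b1, b2, b3, b4⟩ := key h'
  have q1 := a1 r (by omega)
  have q2 := a2 r (by omega)
  have q3 := b1 r (by omega)
  have q4 := b2 r (by omega)
  have eA : Nat.count (fun r => r + 1 ≤ h.A (i + r)) (i + 1) =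
      Nat.count (fun r => r + 1 ≤ h'.A (i + r)) (i + 1) := by omega
  have eB : Nat.count (fun r => r + 1 ≤ h.B (i + r)) (i + 1) =
      Nat.count (fun r => r + 1 ≤ h'.B (i + r)) (i + 1) := by omega
  rw [q1, q2, q3, q4, eA, eB]
  exact ⟨Iff.rfl, Iff.rfl⟩

theorem minA {R R' : ℕ → ℕ → ℕ} (h : RSys R) (h' : RSys R')
    (heq : ∀ i, R (2 * i) 0 - R (2 * (i + 1)) 0 = R' (2 * i) 0 - R' (2 * (i + 1)) 0) {i l : ℕ}
    (hil : i ≤ l) :
    min (i + 1) (h.A (i + l)) = min (i + 1) (h'.A (i + l)) ∧
      min (i + 1) (h.B (i + l)) = min (i + 1) (h'.B (i + l)) := by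
  have key : ∀ s, s ≤ i → ((s + 1 ≤ h.A (i + l)) ↔ (s + 1 ≤ h'.A (i + l))) ∧
      ((s + 1 ≤ h.B (i + l)) ↔ (s + 1 ≤ h'.B (i + l))) := by
    intro s hs
    have := counts h h' heq (i := i + l - s) (r := s) (by omega)
    have e : i + l - s + s = i + l := by omega
    rwa [e] at this
  constructor
  · rcases lt_trichotomy (min (i + 1) (h.A (i + l))) (min (i + 1) (h'.A (i + l))) with hlt | heq' | hlt
    · have := (key (h.A (i + l)) (by omega)).1
      omega
    · exact heq'
    · have := (key (h'.A (i + l)) (by omega)).1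
      omega
  · rcases lt_trichotomy (min (i + 1) (h.B (i + l))) (min (i + 1) (h'.B (i + l))) with hlt | heq' | hlt
    · have := (key (h.B (i + l)) (by omega)).2
      omega
    · exact heq'
    · have := (key (h'.B (i + l)) (by omega)).2
      omega

/-- **The Hilbert function determines the ranks.** -/
theorem unique {R R' : ℕ → ℕ → ℕ} (h : RSys R) (h' : RSys R')
    (heq : ∀ i, R (2 * i) 0 - R (2 * (i + 1)) 0 = R' (2 * i) 0 - R' (2 * (i + 1)) 0) :
    ∀ i l, R (2 * i) (2 * l) = R' (2 * i) (2 * l) := by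
  obtain ⟨N, hN⟩ := h.fin
  obtain ⟨N', hN'⟩ := h'.fin
  have key : ∀ n i l, N + N' ≤ i + l + n → R (2 * i) (2 * l) = R' (2 * i) (2 * l) := by
    intro n
    induction n with
    | zero =>
      intro i l hil
      rw [hN _ _ (by omega), hN' _ _ (by omega)]
    | succ n ih =>
      intro i l hil
      rcases le_total i l with hc | hc
      · rw [h.coarse hc, h'.coarse hc, ih (i + 1) l (by omega), (minA h h' heq hc).1,
          (minA h h' heq hc).2]
      · rw [h.symm, h'.symm, h.coarse hc, h'.coarse hc, ih (l + 1) i (by omega),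
          (minA h h' heq hc).1, (minA h h' heq hc).2]
  intro i l
  exact key (N + N') i l (by omega)

end Pool.Agent.H68.SymDec
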